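import Pool.Agent.Helper73.DC.St5

/-!
# Project DC: module P8 (bounds for walks and pops, digits)
-/

set_option autoImplicit false

namespace Pool.Agent.Helper4.DC

open Pool.Agent.Helper73.DC
open Finset
open scoped Classical

private theorem dstep {B a x : ℕ} (ha : a < B) (i : ℕ) : dg B (a + B * x) (i + 1) = dg B x i := by
  have hB : 0 < B := by omega
  unfold dg
  have h : (a + B * x) / B ^ (i + 1) = x / B ^ i := by
    rw [pow_succ', ← Nat.div_div_eq_div_mul, Nat.add_mul_div_left _ _ hB, Nat.div_eq_of_lt ha, zero_add]
  rw [h]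

private theorem dzero {B a x : ℕ} (ha : a < B) : dg B (a + B * x) 0 = a := by
  unfold dg
  rw [pow_zero, Nat.div_one, Nat.add_mul_mod_self_left, Nat.mod_eq_of_lt ha]

private theorem lstep {B a x n : ℕ} (ha : a < B) (hx : x < B ^ n) : a + B * x < B ^ (n + 1) := by
  have h1 : x + 1 ≤ B ^ n := hx
  calc a + B * x < B + B * x := by omega
    _ = B * (x + 1) := by ring
    _ ≤ B * B ^ n := Nat.mul_le_mul_left _ h1
    _ = B ^ (n + 1) := by rw [pow_succ']

theorem mP8 : StP8 := by
  intro D B cl rs f hf hcl hrs hDB
  have hB : 0 < B := by omega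
  refine ⟨?_, ?_, ?_⟩
  · intro x t
    have key : ∀ n : ℕ, ((wstep cl rs f t)^[n] ⟨x, 0, 0, 0⟩).c ≤ n ∧
        ((wstep cl rs f t)^[n] ⟨x, 0, 0, 0⟩).s < B := by
      intro n
      induction n with
      | zero => exact ⟨le_refl _, hB⟩
      | succ n ih =>
        rw [Function.iterate_succ_apply']
        set a := (wstep cl rs f t)^[n] ⟨x, 0, 0, 0⟩ with ha
        obtain ⟨i1, i2⟩ := ih
        unfold wstep
        split_ifs
        · exact ⟨by omega, i2⟩
        · exact ⟨by simpa using i1, hB⟩
        · exact ⟨by simpa using i1, hB⟩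
        · refine ⟨?_, hB⟩
          change a.c ≤ n + 1
          omega
        · refine ⟨?_, hf _⟩
          change a.c ≤ n + 1
          omega
    exact key D
  · intro s h r hr hh
    have key : ∀ n : ℕ, ∀ a, a = (pstep D cl rs f s)^[n] ⟨h, r, 0⟩ →
        a.r < B ∧ a.h < B ∧ a.t ≤ 1 ∧ (a.t = 0 → a.r + 1 < B) ∧ (a.t = 1 → a.r < D) := by
      intro n
      induction n with
      | zero =>
        rintro a rfl
        refine ⟨?_, hh, ?_, fun _ => hr, ?_⟩
        · change r < B
          omega
        · change 0 ≤ 1
          omega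
        · intro h1
          change 0 = 1 at h1
          omega
      | succ n ih =>
        intro a ha
        rw [Function.iterate_succ_apply'] at ha
        obtain ⟨b, hb⟩ : ∃ b, b = (pstep D cl rs f s)^[n] ⟨h, r, 0⟩ := ⟨_, rfl⟩
        rw [← hb] at ha
        obtain ⟨i1, i2, i3, i4, i5⟩ := ih b hb
        rw [ha]
        unfold pstep
        split_ifs with c1 c2
        · have h1 := hf (rs (walk D cl rs f s b.h).fr b.r)
          refine ⟨?_, ?_, ?_, fun _ => ?_, ?_⟩
          · change f (rs (walk D cl rs f s b.h).fr b.r) - 1 < B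
            omega
          · change b.h - 1 < B
            omega
          · change 0 ≤ 1
            omega
          · change f (rs (walk D cl rs f s b.h).fr b.r) - 1 + 1 < B
            omega
          · intro h2
            exact absurd h2 (by simp)
        · have h1 := hrs (walk D cl rs f s b.h).fr b.r
          refine ⟨?_, ?_, ?_, ?_, fun _ => ?_⟩
          · change rs (walk D cl rs f s b.h).fr b.r < B
            omega
          · change b.h - 1 < B
            omega
          · change 1 ≤ 1
            omega
          · intro h2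
            exact absurd h2 (by simp)
          · exact h1
        · exact ⟨i1, i2, i3, i4, i5⟩
    exact key D _ rfl
  · intro a b c d e ha hb hc hd he
    unfold enc5
    refine ⟨?_, ?_, ?_, ?_, ?_, ?_⟩
    · exact lstep ha (lstep hb (lstep hc (lstep hd (by rw [pow_one]; exact he))))
    · exact dzero ha
    · rw [dstep ha]; exact dzero hb
    · rw [dstep ha, dstep hb]; exact dzero hc
    · rw [dstep ha, dstep hb, dstep hc]; exact dzero hd
    · rw [dstep ha, dstep hb, dstep hc, dstep hd]
      unfold dg
      rw [pow_zero, Nat.div_one, Nat.mod_eq_of_lt he]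

end Pool.Agent.Helper4.DC
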